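import Mathlib
import Pool.Agent.SWT65.Ops
import Pool.Agent.SWT58.Kir

/-!
# The calculus of a new leg on an edge
-/

set_option autoImplicit false

namespace Pool.Agent.SWT69

open Equiv Pool.Agent.SWT49 Pool.Agent.SWT80 Pool.Agent.SWT65 Pool.Agent.SWT80.Gr

variable {V W M : Type} {n : ℕ}

/-! ### Evaluation -/

section

variable (G : Gr V n) (j : Fin (n + 1)) (h : V)

theorem add_e (w : V ⊕ Fin 4) : (add G j h).e w = addE G h w := rfl

theorem add_r (w : V ⊕ Fin 4) : (add G j h).r w = addR G w := rfl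

theorem add_leg (i : Fin (n + 1)) : (add G j h).leg i = addL G j i := rfl

theorem addE_0 : addE G h (Sum.inr 0) = Sum.inl h := rfl

theorem addE_1 : addE G h (Sum.inr 1) = Sum.inl (G.e h) := rfl

theorem addE_2 : addE G h (Sum.inr 2) = Sum.inr 3 := rfl

theorem addE_3 : addE G h (Sum.inr 3) = Sum.inr 2 := rfl

theorem addR_l (v : V) : addR G (Sum.inl v) = Sum.inl (G.r v) := rfl

theorem addR_0 : addR G (Sum.inr 0) = Sum.inr 1 := rfl

theorem addR_1 : addR G (Sum.inr 1) = Sum.inr 2 := rfl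

theorem addR_2 : addR G (Sum.inr 2) = Sum.inr 0 := rfl

theorem addR_3 : addR G (Sum.inr 3) = Sum.inr 3 := rfl

/-! ### Reversals -/

theorem vt0_0 : (add G j h).vt (Sum.inr 0) (Sum.inr 0) := Or.inl rfl

theorem vt0_1 : (add G j h).vt (Sum.inr 0) (Sum.inr 1) := Or.inr (Or.inl rfl)

theorem vt0_2 : (add G j h).vt (Sum.inr 0) (Sum.inr 2) := Or.inr (Or.inr rfl)

theorem vt0_3 : ¬ (add G j h).vt (Sum.inr 0) (Sum.inr 3) := by
  rintro (h1 | h1 | h1)
  · exact absurd (Sum.inr.inj h1) (by decide)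
  · exact absurd (Sum.inr.inj h1) (by decide)
  · exact absurd (Sum.inr.inj h1) (by decide)

theorem vt0_l (v : V) : ¬ (add G j h).vt (Sum.inr 0) (Sum.inl v) := by
  rintro (h1 | h1 | h1) <;> cases h1

theorem fl_0 : ((add G j h).flip (Sum.inr 0)).r (Sum.inr 0) = Sum.inr 2 := by
  rw [flip_r, fr_pos (vt0_0 G j h)]; rfl

theorem fl_1 : ((add G j h).flip (Sum.inr 0)).r (Sum.inr 1) = Sum.inr 0 := by
  rw [flip_r, fr_pos (vt0_1 G j h)]; rfl

theorem fl_2 : ((add G j h).flip (Sum.inr 0)).r (Sum.inr 2) = Sum.inr 1 := by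
  rw [flip_r, fr_pos (vt0_2 G j h)]; rfl

theorem fl_3 : ((add G j h).flip (Sum.inr 0)).r (Sum.inr 3) = Sum.inr 3 := by
  rw [flip_r, fr_neg (vt0_3 G j h)]; rfl

theorem fl_l (v : V) : ((add G j h).flip (Sum.inr 0)).r (Sum.inl v) = Sum.inl (G.r v) := by
  rw [flip_r, fr_neg (vt0_l G j h v)]; rfl

/-- vertices of the old graph -/
theorem vtl_l (u v : V) : (add G j h).vt (Sum.inl u) (Sum.inl v) ↔ G.vt u v := by
  constructor
  · rintro (h1 | h1 | h1)
    · exact Or.inl (Sum.inl.inj h1)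
    · exact Or.inr (Or.inl (Sum.inl.inj h1))
    · exact Or.inr (Or.inr (Sum.inl.inj h1))
  · rintro (h1 | h1 | h1)
    · exact Or.inl (congrArg Sum.inl h1)
    · exact Or.inr (Or.inl (congrArg Sum.inl h1))
    · exact Or.inr (Or.inr (congrArg Sum.inl h1))

theorem vtl_r (u : V) (t : Fin 4) : ¬ (add G j h).vt (Sum.inl u) (Sum.inr t) := by
  rintro (h1 | h1 | h1) <;> cases h1

/-- The reversal of an old vertex. -/
theorem add_flip (u : V) : (add G j h).flip (Sum.inl u) = add (G.flip u) j h := by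
  refine Gr.ext ?_ ?_ ?_
  · rfl
  · refine Equiv.ext fun w => ?_
    rcases w with v | t
    · by_cases hv : G.vt u v
      · rw [flip_r, fr_pos ((vtl_l G j h u v).2 hv)]
        show Sum.inl (G.r (G.r v)) = Sum.inl ((G.flip u).r v)
        rw [flip_r, fr_pos hv]
      · rw [flip_r, fr_neg (fun h1 => hv ((vtl_l G j h u v).1 h1))]
        show Sum.inl (G.r v) = Sum.inl ((G.flip u).r v)
        rw [flip_r, fr_neg hv]
    · rw [flip_r, fr_neg (vtl_r G j h u t)]
      fin_cases t <;> rfl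
  · rfl

/-- Renaming of the old half-edges. -/
theorem add_map (f : V ≃ W) : (add G j h).map (Equiv.sumCongr f (Equiv.refl (Fin 4))) =
    add (G.map f) j (f h) := by
  refine map_eq ?_ ?_ ?_
  · rintro (v | t)
    · show addE (G.map f) (f h) (Sum.inl (f v)) = _
      rw [add_e]
      by_cases h1 : v = h
      · rw [h1, addE_h, addE_h]
        rfl
      by_cases h2 : v = G.e h
      · rw [h2, addE_eh]
        have h3 := addE_eh (G.map f) (f h)
        rw [map_e] at h3
        rw [h3]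
        rfl
      rw [addE_o G h1 h2, addE_o (G.map f) (fun h3 => h1 (f.injective h3)), map_e]
      · rfl
      · rw [map_e]
        exact fun h3 => h2 (f.injective h3)
    · fin_cases t
      · rfl
      · show addE (G.map f) (f h) (Sum.inr 1) = Sum.inl (f (G.e h))
        rw [addE_1, map_e]
      · rfl
      · rfl
  · rintro (v | t)
    · show Sum.inl ((G.map f).r (f v)) = Sum.inl (f (G.r v))
      rw [map_r]
    · fin_cases t <;> rfl
  · intro i
    rcases Fin.eq_self_or_eq_succAbove j i with rfl | ⟨i, rfl⟩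
    · rw [add_leg, add_leg, addL_new, addL_new]
      rfl
    · rw [add_leg, add_leg, addL_old, addL_old]
      rfl

/-! ### The other side of the edge -/

open Classical in
/-- the exchange of `inr 0` and `inr 1` -/
noncomputable def sw01 (V : Type) : V ⊕ Fin 4 ≃ V ⊕ Fin 4 := Equiv.swap (Sum.inr 0) (Sum.inr 1)

open Classical in
theorem sw01_0 : sw01 V (Sum.inr 0) = Sum.inr 1 := Equiv.swap_apply_left _ _

open Classical in
theorem sw01_1 : sw01 V (Sum.inr 1) = Sum.inr 0 := Equiv.swap_apply_right _ _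

open Classical in
theorem sw01_2 : sw01 V (Sum.inr 2) = Sum.inr 2 :=
  Equiv.swap_apply_of_ne_of_ne (by simp) (by simp)

open Classical in
theorem sw01_3 : sw01 V (Sum.inr 3) = Sum.inr 3 :=
  Equiv.swap_apply_of_ne_of_ne (by simp) (by simp)

open Classical in
theorem sw01_l (v : V) : sw01 V (Sum.inl v) = Sum.inl v :=
  Equiv.swap_apply_of_ne_of_ne Sum.inl_ne_inr Sum.inl_ne_inr

theorem add_eh : (add G j h).map (sw01 V) = (add G j (G.e h)).flip (Sum.inr 0) := by
  refine map_eq ?_ ?_ ?_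
  · rintro (v | t)
    · rw [sw01_l, flip_e, add_e, add_e]
      by_cases h1 : v = h
      · rw [h1, addE_h, sw01_0]
        have h2 := addE_eh G (G.e h)
        rwa [G.e2] at h2
      by_cases h2 : v = G.e h
      · rw [h2, addE_h, addE_eh, sw01_1]
      rw [addE_o G h1 h2, addE_o G h2 (by rw [G.e2]; exact h1), sw01_l]
    · fin_cases t
      · show addE G (G.e h) (sw01 V (Sum.inr 0)) = sw01 V (Sum.inl h)
        rw [sw01_0, sw01_l, addE_1, G.e2]
      · show addE G (G.e h) (sw01 V (Sum.inr 1)) = sw01 V (Sum.inl (G.e h))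
        rw [sw01_1, sw01_l, addE_0]
      · show addE G (G.e h) (sw01 V (Sum.inr 2)) = sw01 V (Sum.inr 3)
        rw [sw01_2, sw01_3, addE_2]
      · show addE G (G.e h) (sw01 V (Sum.inr 3)) = sw01 V (Sum.inr 2)
        rw [sw01_2, sw01_3, addE_3]
  · rintro (v | t)
    · rw [sw01_l, fl_l]
      exact (sw01_l _).symm
    · fin_cases t
      · show _ = sw01 V (Sum.inr 1)
        rw [sw01_1]
        show ((add G j (G.e h)).flip (Sum.inr 0)).r (sw01 V (Sum.inr 0)) = _
        rw [sw01_0, fl_1]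
      · show _ = sw01 V (Sum.inr 2)
        rw [sw01_2]
        show ((add G j (G.e h)).flip (Sum.inr 0)).r (sw01 V (Sum.inr 1)) = _
        rw [sw01_1, fl_0]
      · show _ = sw01 V (Sum.inr 0)
        rw [sw01_0]
        show ((add G j (G.e h)).flip (Sum.inr 0)).r (sw01 V (Sum.inr 2)) = _
        rw [sw01_2, fl_2]
      · show _ = sw01 V (Sum.inr 3)
        rw [sw01_3]
        show ((add G j (G.e h)).flip (Sum.inr 0)).r (sw01 V (Sum.inr 3)) = _
        rw [sw01_3, fl_3]
  · intro i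
    rw [flip_leg, add_leg, add_leg]
    rcases Fin.eq_self_or_eq_succAbove j i with rfl | ⟨i, rfl⟩
    · have h1 := addL_new G i
      exact h1.trans (by rw [h1, sw01_3])
    · have h1 := addL_old G j i
      exact h1.trans (by rw [h1, sw01_l])

/-! ### Around a vertex -/

open Classical in
/-- the cycle `inl u ↦ inr 1 ↦ inl v ↦ inl u` -/
noncomputable def cyc (u v : V) : V ⊕ Fin 4 ≃ V ⊕ Fin 4 :=
  (Equiv.swap (Sum.inl u) (Sum.inr 1) : Perm (V ⊕ Fin 4)) * Equiv.swap (Sum.inr 1) (Sum.inl v)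

variable {u v : V}

open Classical in
theorem cyc_u (huv : u ≠ v) : cyc u v (Sum.inl u) = Sum.inr 1 := by
  unfold cyc
  rw [Equiv.Perm.mul_apply, Equiv.swap_apply_of_ne_of_ne Sum.inl_ne_inr
    (fun h1 => huv (Sum.inl.inj h1)), Equiv.swap_apply_left]

open Classical in
theorem cyc_v : cyc u v (Sum.inl v) = Sum.inl u := by
  unfold cyc
  rw [Equiv.Perm.mul_apply, Equiv.swap_apply_right, Equiv.swap_apply_right]

open Classical in
theorem cyc_1 (huv : u ≠ v) : cyc u v (Sum.inr 1) = Sum.inl v := by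
  unfold cyc
  rw [Equiv.Perm.mul_apply, Equiv.swap_apply_left, Equiv.swap_apply_of_ne_of_ne
    (fun h1 => huv (Sum.inl.inj h1).symm) Sum.inl_ne_inr]

open Classical in
theorem cyc_t {t : Fin 4} (ht : t ≠ 1) : cyc u v (Sum.inr t) = Sum.inr t := by
  unfold cyc
  have h1 : (Sum.inr t : V ⊕ Fin 4) ≠ Sum.inr 1 := fun h => ht (Sum.inr.inj h)
  rw [Equiv.Perm.mul_apply, Equiv.swap_apply_of_ne_of_ne h1 Sum.inr_ne_inl,
    Equiv.swap_apply_of_ne_of_ne Sum.inr_ne_inl h1]

open Classical in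
theorem cyc_o {w : V} (hu : w ≠ u) (hv : w ≠ v) : cyc u v (Sum.inl w) = Sum.inl w := by
  unfold cyc
  rw [Equiv.Perm.mul_apply, Equiv.swap_apply_of_ne_of_ne Sum.inl_ne_inr
    (fun h1 => hv (Sum.inl.inj h1)), Equiv.swap_apply_of_ne_of_ne
    (fun h1 => hu (Sum.inl.inj h1)) Sum.inl_ne_inr]

/-- The edges of `add G j v` after the renaming. -/
theorem addE_cyc (huv : u ≠ v) (w : V ⊕ Fin 4) :
    addE G u (cyc u v w) = cyc u v (addE G v w) := by
  rcases w with w | t
  · by_cases v1 : w = v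
    · rw [v1, cyc_v, addE_h, addE_h, cyc_t (by decide)]
    by_cases v2 : w = u
    · rw [v2, cyc_u huv, addE_1]
      by_cases v3 : u = G.e v
      · have v5 : G.e u = v := by rw [v3, G.e2]
        rw [v5, v3, addE_eh, ← v3, cyc_1 huv]
      · rw [addE_o G huv v3, cyc_o (G.e1 u)]
        intro h5
        apply v3
        rw [← h5, G.e2]
    rw [cyc_o v2 v1]
    by_cases v3 : w = G.e v
    · rw [v3, addE_eh, cyc_1 huv, addE_o G (by rw [← v3]; exact v2), G.e2]
      intro h5
      exact huv (G.e_inj h5).symm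
    rw [addE_o G v1 v3]
    by_cases v4 : w = G.e u
    · rw [v4, G.e2, cyc_u huv, addE_eh]
    rw [addE_o G v2 v4, cyc_o]
    · intro h5
      apply v4
      rw [← h5, G.e2]
    · intro h5
      apply v3
      rw [← h5, G.e2]
  · fin_cases t
    · show addE G u (cyc u v (Sum.inr 0)) = cyc u v (Sum.inl v)
      rw [cyc_t (by decide), cyc_v, addE_0]
    · show addE G u (cyc u v (Sum.inr 1)) = cyc u v (Sum.inl (G.e v))
      rw [cyc_1 huv]
      by_cases v3 : v = G.e u
      · have v5 : G.e v = u := by rw [v3, G.e2]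
        rw [v5, cyc_u huv, v3, addE_eh]
      · rw [addE_o G huv.symm v3, cyc_o _ (G.e1 _)]
        intro h5
        apply v3
        rw [← h5, G.e2]
    · show addE G u (cyc u v (Sum.inr 2)) = cyc u v (Sum.inr 3)
      rw [cyc_t (by decide), cyc_t (by decide), addE_2]
    · show addE G u (cyc u v (Sum.inr 3)) = cyc u v (Sum.inr 2)
      rw [cyc_t (by decide), cyc_t (by decide), addE_3]

/-- The legs of `add G j v` after the renaming. -/
theorem addL_cyc (hu : G.r u ≠ u) (hv : G.r v ≠ v) (i : Fin (n + 1)) :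
    addL G j i = cyc u v (addL G j i) := by
  rcases Fin.eq_self_or_eq_succAbove j i with rfl | ⟨i, rfl⟩
  · rw [addL_new, cyc_t (by decide)]
  · rw [addL_old, cyc_o]
    · intro h1
      apply hu
      rw [← h1, G.r_leg]
    · intro h1
      apply hv
      rw [← h1, G.r_leg]

end

/-! ### IHX for the three half-edges of a vertex -/

section

variable (G : Gr V n) (j : Fin (n + 1))

/-- the second graph: the new leg on the edge of `r u` -/
noncomputable def locJ (u : V) : Gr (V ⊕ Fin 4) (n + 1) :=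
  ((add G j (G.r u)).flip (Sum.inr 0)).map (cyc u (G.r u))

/-- the third graph: the new leg on the edge of `r (r u)` -/
noncomputable def locX (u : V) : Gr (V ⊕ Fin 4) (n + 1) :=
  (((add G j (G.r (G.r u))).flip (Sum.inl u)).flip (Sum.inr 0)).map (cyc u (G.r (G.r u)))

variable {u : V}

theorem locX_eq : locX G j u =
    ((add (G.flip u) j (G.r (G.r u))).flip (Sum.inr 0)).map (cyc u (G.r (G.r u))) := by
  unfold locX
  rw [add_flip]

theorem locJ_e (huv : u ≠ G.r u) : (locJ G j u).e = (add G j u).e := by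
  refine Equiv.ext fun w => ?_
  obtain ⟨w, rfl⟩ := (cyc u (G.r u)).surjective w
  unfold locJ
  rw [map_e, flip_e, add_e, add_e, addE_cyc G huv]

theorem locX_e (huv : u ≠ G.r (G.r u)) : (locX G j u).e = (add G j u).e := by
  refine Equiv.ext fun w => ?_
  obtain ⟨w, rfl⟩ := (cyc u (G.r (G.r u))).surjective w
  unfold locX
  rw [map_e, flip_e, flip_e, add_e, add_e, addE_cyc G huv]

theorem locJ_r (w : V ⊕ Fin 4) : (locJ G j u).r (cyc u (G.r u) w) =
    cyc u (G.r u) (((add G j (G.r u)).flip (Sum.inr 0)).r w) := map_r _ _ _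

theorem locX_r (w : V ⊕ Fin 4) : (locX G j u).r (cyc u (G.r (G.r u)) w) =
    cyc u (G.r (G.r u)) (((add (G.flip u) j (G.r (G.r u))).flip (Sum.inr 0)).r w) := by
  rw [locX_eq]
  exact map_r _ _ _

/-- **IHX for the three positions around a vertex**, in the form with the edge of `u`. -/
theorem add_loc (hu : G.r u ≠ u) :
    Gr.Loc (add G j u) (locJ G j u) (locX G j u) (Sum.inl u) := by
  have hc : G.r (G.r u) ≠ G.r u := fun h1 => hu (G.r_inj h1)
  have hd : G.r (G.r u) ≠ u := fun h1 => hu (G.r2 h1)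
  have h3 : G.r (G.r (G.r u)) = u := G.r3 u
  have fu : (G.flip u).r u = G.r (G.r u) := by
    rw [flip_r, fr_pos (Or.inl rfl)]
  have fc : (G.flip u).r (G.r u) = u := by
    rw [flip_r, fr_pos (Or.inr (Or.inl rfl)), h3]
  have fd : (G.flip u).r (G.r (G.r u)) = G.r u := by
    rw [flip_r, fr_pos (Or.inr (Or.inr rfl)), h3]
  have Ie : (add G j u).e (Sum.inl u) = Sum.inr 0 := addE_h G u
  have I0 : (add G j u).r (Sum.inr 0) = Sum.inr 1 := rfl
  have I1 : (add G j u).r (Sum.inr 1) = Sum.inr 2 := rfl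
  have Il : ∀ v : V, (add G j u).r (Sum.inl v) = Sum.inl (G.r v) := fun v => rfl
  refine ⟨⟨?_, ?_, ?_, ?_⟩, ?_, ?_, ?_, ?_, ?_, ?_, ?_, ?_, ?_, ?_, ?_, ?_, ?_,
    locJ_e G j hu.symm, locX_e G j hd.symm, ?_, ?_⟩
  · rw [Il]
    exact fun h1 => hu (Sum.inl.inj h1)
  · rw [Ie, I0]
    exact fun h1 => absurd (Sum.inr.inj h1) (by decide)
  · rw [Ie, Il]
    exact Sum.inr_ne_inl
  · rw [Ie, Il, Il]
    exact Sum.inr_ne_inl
  · have h5 := locJ_r G j (u := u) (Sum.inl (G.r u))
    rw [cyc_v, fl_l, cyc_o hd hc] at h5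
    rw [Il, Il, h5]
  · have h5 := locJ_r G j (u := u) (Sum.inl (G.r (G.r u)))
    rw [cyc_o hd hc, fl_l, h3, cyc_u hu.symm] at h5
    rw [Il, Il, Ie, I0, h5]
  · have h5 := locJ_r G j (u := u) (Sum.inl u)
    rw [cyc_u hu.symm, fl_l, cyc_v] at h5
    rw [Ie, I0, h5]
  · have h5 := locJ_r G j (u := u) (Sum.inr 0)
    rw [cyc_t (by decide), fl_0, cyc_t (by decide)] at h5
    rw [Ie, I0, I1, h5]
  · have h5 := locJ_r G j (u := u) (Sum.inr 2)
    rw [cyc_t (by decide), fl_2, cyc_1 hu.symm] at h5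
    rw [Ie, I0, I1, Il, h5]
  · have h5 := locJ_r G j (u := u) (Sum.inr 1)
    rw [cyc_1 hu.symm, fl_1, cyc_t (by decide)] at h5
    rw [Ie, Il, h5]
  · have h5 := locX_r G j (u := u) (Sum.inl (G.r (G.r u)))
    rw [cyc_v, fl_l, fd, cyc_o hu hc.symm] at h5
    rw [Il, h5]
  · have h5 := locX_r G j (u := u) (Sum.inl (G.r u))
    rw [cyc_o hu hc.symm, fl_l, fc, cyc_u hd.symm] at h5
    rw [Il, Ie, I0, h5]
  · have h5 := locX_r G j (u := u) (Sum.inl u)
    rw [cyc_u hd.symm, fl_l, fu, cyc_v] at h5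
    rw [Ie, I0, h5]
  · have h5 := locX_r G j (u := u) (Sum.inr 0)
    rw [cyc_t (by decide), fl_0, cyc_t (by decide)] at h5
    rw [Ie, I0, I1, h5]
  · have h5 := locX_r G j (u := u) (Sum.inr 2)
    rw [cyc_t (by decide), fl_2, cyc_1 hd.symm] at h5
    rw [Ie, I0, I1, Il, Il, h5]
  · have h5 := locX_r G j (u := u) (Sum.inr 1)
    rw [cyc_1 hd.symm, fl_1, cyc_t (by decide)] at h5
    rw [Ie, Il, Il, h5]
  · intro w w1 w2
    rcases w with v | t
    · have v0 : ¬ G.vt u v := fun h1 => w1 ((vtl_l G j u u v).2 h1)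
      have v2 : v ≠ u := fun h1 => v0 (Or.inl h1)
      have v3 : v ≠ G.r u := fun h1 => v0 (Or.inr (Or.inl h1))
      have v4 : v ≠ G.r (G.r u) := fun h1 => v0 (Or.inr (Or.inr h1))
      have s0 : ¬ G.vt u (G.r v) := fun h1 => v0 (G.vt_r.1 h1)
      have s2 : G.r v ≠ u := fun h1 => s0 (Or.inl h1)
      have s3 : G.r v ≠ G.r u := fun h1 => s0 (Or.inr (Or.inl h1))
      have s4 : G.r v ≠ G.r (G.r u) := fun h1 => s0 (Or.inr (Or.inr h1))
      have h5 := locJ_r G j (u := u) (Sum.inl v)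
      have h6 := locX_r G j (u := u) (Sum.inl v)
      rw [cyc_o v2 v3, fl_l, cyc_o s2 s3] at h5
      rw [cyc_o v2 v4, fl_l, flip_r, fr_neg v0, cyc_o s2 s4] at h6
      rw [h5, h6, Il]
      exact ⟨rfl, rfl⟩
    · rw [Ie] at w2
      have h7 : t = 3 := by
        fin_cases t
        · exact absurd (vt0_0 G j u) w2
        · exact absurd (vt0_1 G j u) w2
        · exact absurd (vt0_2 G j u) w2
        · rfl
      subst h7
      have h5 := locJ_r G j (u := u) (Sum.inr 3)
      have h6 := locX_r G j (u := u) (Sum.inr 3)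
      rw [cyc_t (by decide), fl_3, cyc_t (by decide)] at h5
      rw [cyc_t (by decide), fl_3, cyc_t (by decide)] at h6
      rw [h5, h6]
      exact ⟨rfl, rfl⟩
  · funext i
    exact (addL_cyc G j hu (fun h1 => hu (G.r_inj h1)) i).symm
  · funext i
    refine (addL_cyc G j hu (fun h1 => ?_) i).symm
    exact hc (G.r_inj h1)

end

/-! ### The values of a functional -/

section

variable [AddCommGroup M] [Finite V] {F : (V : Type) → Gr V (n + 1) → M} (hF : Rel F)
  (G : Gr V n) (j : Fin (n + 1))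

include hF

/-- the other side of the edge -/
theorem F_eh (h : V) : F _ (add G j (G.e h)) = - F _ (add G j h) := by
  have h1 := hF.iso (V ⊕ Fin 4) (V ⊕ Fin 4) (sw01 V) (add G j h)
  rw [add_eh, hF.as (V ⊕ Fin 4) _ _ (by
    rw [add_r, addR_0]
    exact fun h1 => absurd (Sum.inr.inj h1) (by decide))] at h1
  rw [← h1, neg_neg]

/-- reversal of an old vertex -/
theorem F_flip (h u : V) (hu : G.r u ≠ u) : F _ (add (G.flip u) j h) = - F _ (add G j h) := by
  rw [← add_flip, hF.as (V ⊕ Fin 4) _ _ (fun h1 => hu (Sum.inl.inj h1))]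

/-- renaming of the old half-edges -/
theorem F_map [Finite W] (f : V ≃ W) (h : V) : F _ (add (G.map f) j (f h)) = F _ (add G j h) := by
  rw [← add_map]
  exact hF.iso (V ⊕ Fin 4) (W ⊕ Fin 4) _ _

/-- the three half-edges of a vertex -/
theorem F_vertex {u : V} (hu : G.r u ≠ u) :
    F _ (add G j u) + F _ (add G j (G.r u)) + F _ (add G j (G.r (G.r u))) = 0 := by
  have h1 := hF.ihx (V ⊕ Fin 4) _ _ _ _ (add_loc G j hu)
  have e1 : F _ (locJ G j u) = - F _ (add G j (G.r u)) := by
    unfold locJ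
    rw [hF.iso, hF.as (V ⊕ Fin 4) _ _ (by
      rw [add_r, addR_0]
      exact fun h1 => absurd (Sum.inr.inj h1) (by decide))]
  have e2 : F _ (locX G j u) = F _ (add G j (G.r (G.r u))) := by
    rw [locX_eq, hF.iso, hF.as (V ⊕ Fin 4) _ _ (by
      rw [add_r, addR_0]
      exact fun h1 => absurd (Sum.inr.inj h1) (by decide)), F_flip hF G j _ u hu, neg_neg]
  rw [e1, e2] at h1
  rw [h1]
  abel

/-- **Kirchhoff's law**: the sum over all legs (the graph need not be connected). -/
theorem add_kirchhoff : ∑ k : Fin n, F _ (add G j (G.leg k)) = 0 := by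
  classical
  have := Fintype.ofFinite V
  have s1 : ∑ h : V, F _ (add G j h) = 0 := by
    refine Finset.sum_involution (fun h _ => G.e h) ?_ ?_ ?_ ?_
    · intro h _
      rw [F_eh hF]
      exact add_neg_cancel _
    · intro h _ _
      exact G.e1 h
    · intro h _
      exact Finset.mem_univ _
    · intro h _
      exact G.e2 h
  have s2 : ∑ h ∈ Finset.univ.filter (fun h => G.r h ≠ h), F _ (add G j h) = 0 := by
    refine SWT58.sum_triples (G.r : V → V) (fun h => F _ (add G j h)) G.r3 _ _ rfl ?_ ?_ ?_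
    · intro h hh
      rw [Finset.mem_filter] at hh ⊢
      exact ⟨Finset.mem_univ _, fun h1 => hh.2 (G.r_inj h1)⟩
    · intro h hh
      exact (Finset.mem_filter.1 hh).2
    · intro h hh
      exact F_vertex hF G j (Finset.mem_filter.1 hh).2
  rw [← Finset.sum_filter_add_sum_filter_not _ (fun h => G.r h ≠ h), s2, zero_add] at s1
  rw [← s1]
  have s3 : Finset.univ.filter (fun h => ¬ G.r h ≠ h) = Finset.univ.image G.leg := by
    ext h
    rw [Finset.mem_filter, not_not, Finset.mem_image]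
    constructor
    · rintro ⟨_, h3⟩
      obtain ⟨k, rfl⟩ := (G.fix h).1 h3
      exact ⟨k, Finset.mem_univ _, rfl⟩
    · rintro ⟨k, _, rfl⟩
      exact ⟨Finset.mem_univ _, G.r_leg k⟩
  rw [s3, Finset.sum_image fun a _ b _ h => G.inj h]

end

end Pool.Agent.SWT69
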