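import Mathlib
import Pool.Agent.SWT69.Add

/-!
# A graph with a leg at an inner vertex is a graph with a new leg
-/

set_option autoImplicit false

namespace Pool.Agent.SWT69

open Equiv Pool.Agent.SWT49 Pool.Agent.SWT80 Pool.Agent.SWT65 Pool.Agent.SWT80.Gr

variable {V : Type} {n : ℕ}

/-- facts about the vertex `(y, a, b)` of the leg `p` -/
structure Hair (G : Gr V (n + 1)) (j : Fin (n + 1)) (p y a b : V) : Prop where
  lp : G.leg j = p
  ep : G.e p = y
  ry : G.r y = a
  ra : G.r a = b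
  rb : G.r b = y
  rp : G.r p = p
  ay : a ≠ y
  ba : b ≠ a
  yb : y ≠ b
  ne : G.e a ≠ b

theorem hair_mk (G : Gr V (n + 1)) (j : Fin (n + 1)) (hy : G.r (G.e (G.leg j)) ≠ G.e (G.leg j))
    (hne : G.e (G.r (G.e (G.leg j))) ≠ G.r (G.r (G.e (G.leg j)))) :
    Hair G j (G.leg j) (G.e (G.leg j)) (G.r (G.e (G.leg j))) (G.r (G.r (G.e (G.leg j)))) where
  lp := rfl
  ep := rfl
  ry := rfl
  ra := rfl
  rb := G.r3 _
  rp := G.r_leg j
  ay := hy
  ba := fun h => hy (G.r_inj h)
  yb := fun h => hy (G.r2 h.symm)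
  ne := hne

section

variable {G : Gr V (n + 1)} {j : Fin (n + 1)} {p y a b : V} (H : Hair G j p y a b)

include H

theorem Hair.py : p ≠ y := by
  rw [← H.ep]
  exact (G.e1 p).symm

theorem Hair.pa : p ≠ a := by
  intro h
  have h1 : G.r p = G.r y := H.rp.trans (h.trans H.ry.symm)
  exact H.py (G.r_inj h1)

theorem Hair.pb : p ≠ b := by
  intro h
  have h1 : G.r p = G.r a := H.rp.trans (h.trans H.ra.symm)
  exact H.pa (G.r_inj h1)

theorem Hair.ey : G.e y = p := by rw [← H.ep, G.e2]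

theorem Hair.ne' : G.e b ≠ a := fun h => H.ne (by rw [← h, G.e2])

/-- the half-edges which remain -/
def Hair.P (_ : Hair G j p y a b) (v : V) : Prop := v ≠ p ∧ v ≠ y ∧ v ≠ a ∧ v ≠ b

theorem Hair.P_ea : H.P (G.e a) := by
  refine ⟨fun h => H.ay ?_, fun h => H.pa ?_, G.e1 a, H.ne⟩
  · rw [← H.ep, ← h, G.e2]
  · rw [← H.ey, ← h, G.e2]

theorem Hair.P_eb : H.P (G.e b) := by
  refine ⟨fun h => H.yb ?_, fun h => H.pb ?_, H.ne', G.e1 b⟩
  · rw [← H.ep, ← h, G.e2]
  · rw [← H.ey, ← h, G.e2]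

theorem Hair.P_r {v : V} (hv : H.P v) : H.P (G.r v) := by
  refine ⟨fun h => hv.1 (G.r_inj (h.trans H.rp.symm)), fun h => hv.2.2.2 (G.r_inj (h.trans H.rb.symm)),
    fun h => hv.2.1 (G.r_inj (h.trans H.ry.symm)), fun h => hv.2.2.1 (G.r_inj (h.trans H.ra.symm))⟩

open Classical in
/-- the edges without the vertex -/
noncomputable def Hair.eK (_ : Hair G j p y a b) (v : V) : V :=
  if G.e v = a then G.e b else if G.e v = b then G.e a else G.e v

theorem Hair.eK_a {v : V} (h : G.e v = a) : H.eK v = G.e b := if_pos h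

theorem Hair.eK_b {v : V} (h : G.e v = b) : H.eK v = G.e a :=
  (if_neg (fun h1 => H.ba (h.symm.trans h1))).trans (if_pos h)

theorem Hair.eK_o {v : V} (h1 : G.e v ≠ a) (h2 : G.e v ≠ b) : H.eK v = G.e v :=
  (if_neg h1).trans (if_neg h2)

theorem Hair.P_eK {v : V} (hv : H.P v) : H.P (H.eK v) := by
  by_cases h1 : G.e v = a
  · rw [H.eK_a h1]
    exact H.P_eb
  by_cases h2 : G.e v = b
  · rw [H.eK_b h2]
    exact H.P_ea
  rw [H.eK_o h1 h2]
  refine ⟨fun h => hv.2.1 ?_, fun h => hv.1 ?_, h1, h2⟩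
  · rw [← H.ep, ← h, G.e2]
  · rw [← H.ey, ← h, G.e2]

theorem Hair.eK2 {v : V} (hv : H.P v) : H.eK (H.eK v) = v := by
  by_cases h1 : G.e v = a
  · rw [H.eK_a h1, H.eK_b (G.e2 b), ← h1, G.e2]
  by_cases h2 : G.e v = b
  · rw [H.eK_b h2, H.eK_a (G.e2 a), ← h2, G.e2]
  rw [H.eK_o h1 h2, H.eK_o (by rw [G.e2]; exact hv.2.2.1) (by rw [G.e2]; exact hv.2.2.2), G.e2]

theorem Hair.eK1 {v : V} : H.eK v ≠ v := by
  by_cases h1 : G.e v = a
  · rw [H.eK_a h1]
    intro h
    apply H.ba
    rw [← h1, ← h, G.e2]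
  by_cases h2 : G.e v = b
  · rw [H.eK_b h2]
    intro h
    apply H.ba
    rw [← h2, ← h, G.e2]
  rw [H.eK_o h1 h2]
  exact G.e1 v

theorem Hair.P_leg (i : Fin n) : H.P (G.leg (j.succAbove i)) := by
  have h0 : G.r (G.leg (j.succAbove i)) = G.leg (j.succAbove i) := G.r_leg _
  refine ⟨fun h => ?_, fun h => ?_, fun h => ?_, fun h => ?_⟩
  · exact Fin.succAbove_ne j i (G.inj (h.trans H.lp.symm))
  · rw [h, H.ry] at h0
    exact H.ay h0
  · rw [h, H.ra] at h0
    exact H.ba h0
  · rw [h, H.rb] at h0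
    exact H.yb h0

/-- The graph without the leg `j`. -/
noncomputable def Hair.K : Gr {v : V // H.P v} n where
  e := Function.Involutive.toPerm (fun v => ⟨H.eK v.1, H.P_eK v.2⟩) fun v =>
    Subtype.ext (H.eK2 v.2)
  r := Gr.perm3 (fun v => ⟨G.r v.1, H.P_r v.2⟩) fun v => Subtype.ext (G.r3 v.1)
  leg i := ⟨G.leg (j.succAbove i), H.P_leg i⟩
  e2 v := Subtype.ext (H.eK2 v.2)
  e1 v h := H.eK1 (congrArg Subtype.val h)
  r3 v := Subtype.ext (G.r3 v.1)
  inj i k h := Fin.succAbove_right_injective (G.inj (congrArg Subtype.val h))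
  fix v := by
    rw [Gr.perm3_apply]
    constructor
    · intro h
      obtain ⟨k, hk⟩ := (G.fix v.1).1 (congrArg Subtype.val h)
      rcases Fin.eq_self_or_eq_succAbove j k with rfl | ⟨i, rfl⟩
      · exact absurd (hk.symm.trans H.lp) v.2.1
      · exact ⟨i, Subtype.ext hk⟩
    · rintro ⟨i, rfl⟩
      exact Subtype.ext (G.r_leg _)

/-- the renaming -/
def Hair.fn : {v : V // H.P v} ⊕ Fin 4 → V
  | Sum.inl v => v.1
  | Sum.inr 0 => a
  | Sum.inr 1 => b
  | Sum.inr 2 => y
  | Sum.inr 3 => p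

theorem Hair.fn_bij : Function.Bijective H.fn := by
  constructor
  · rintro (v | s) (w | t) h
    · exact congrArg Sum.inl (Subtype.ext h)
    · exfalso
      have h1 := v.2
      fin_cases t
      · exact h1.2.2.1 h
      · exact h1.2.2.2 h
      · exact h1.2.1 h
      · exact h1.1 h
    · exfalso
      have h1 := w.2
      fin_cases s
      · exact h1.2.2.1 h.symm
      · exact h1.2.2.2 h.symm
      · exact h1.2.1 h.symm
      · exact h1.1 h.symm
    · fin_cases s <;> fin_cases t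
      · rfl
      · exact absurd h.symm H.ba
      · exact absurd h H.ay
      · exact absurd h.symm H.pa
      · exact absurd h H.ba
      · rfl
      · exact absurd h.symm H.yb
      · exact absurd h.symm H.pb
      · exact absurd h.symm H.ay
      · exact absurd h H.yb
      · rfl
      · exact absurd h.symm H.py
      · exact absurd h H.pa
      · exact absurd h H.pb
      · exact absurd h H.py
      · rfl
  · intro v
    by_cases h1 : v = p
    · exact ⟨Sum.inr 3, h1.symm⟩
    by_cases h2 : v = y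
    · exact ⟨Sum.inr 2, h2.symm⟩
    by_cases h3 : v = a
    · exact ⟨Sum.inr 0, h3.symm⟩
    by_cases h4 : v = b
    · exact ⟨Sum.inr 1, h4.symm⟩
    exact ⟨Sum.inl ⟨v, h1, h2, h3, h4⟩, rfl⟩

/-- the half-edge which gets the new vertex -/
def Hair.h : {v : V // H.P v} := ⟨G.e a, H.P_ea⟩

theorem Hair.K_e (v : {v : V // H.P v}) : ((H.K).e v).1 = H.eK v.1 := rfl

theorem Hair.K_eh : ((H.K).e H.h).1 = G.e b := H.eK_a (G.e2 a)

theorem Hair.map_add : (add H.K j H.h).map (Equiv.ofBijective H.fn H.fn_bij) = G := by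
  refine map_eq ?_ ?_ ?_
  · rintro (v | t)
    · show G.e v.1 = H.fn (addE H.K H.h (Sum.inl v))
      by_cases h1 : v = H.h
      · rw [h1, addE_h]
        exact G.e2 a
      by_cases h2 : v = (H.K).e H.h
      · rw [h2, addE_eh]
        show G.e _ = b
        rw [H.K_eh, G.e2]
      rw [addE_o _ h1 h2]
      show _ = H.eK v.1
      rw [H.eK_o]
      · intro h3
        apply h1
        refine Subtype.ext ?_
        show v.1 = G.e a
        exact ((congrArg G.e h3).symm.trans (G.e2 v.1)).symm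
      · intro h3
        apply h2
        refine Subtype.ext ?_
        rw [H.K_eh]
        exact ((congrArg G.e h3).symm.trans (G.e2 v.1)).symm
    · fin_cases t
      · rfl
      · show G.e b = ((H.K).e H.h).1
        rw [H.K_eh]
      · exact H.ey
      · exact H.ep
  · rintro (v | t)
    · rfl
    · fin_cases t
      · exact H.ra
      · exact H.rb
      · exact H.ry
      · exact H.rp
  · intro i
    rcases Fin.eq_self_or_eq_succAbove j i with rfl | ⟨i, rfl⟩
    · rw [add_leg, addL_new]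
      exact H.lp
    · rw [add_leg, addL_old]
      rfl

end

/-- **A graph with a leg `j` at an inner vertex whose other two half-edges are not joined to each
other is a graph with a new leg**: `f (inr 3)` is the leg, `f (inr 2), f (inr 0), f (inr 1)` the
half-edges at its vertex in their cyclic order. -/
theorem exists_add (G : Gr V (n + 1)) (j : Fin (n + 1))
    (hy : G.r (G.e (G.leg j)) ≠ G.e (G.leg j))
    (hne : G.e (G.r (G.e (G.leg j))) ≠ G.r (G.r (G.e (G.leg j)))) :
    ∃ (V₀ : Type) (K : Gr V₀ n) (h : V₀) (f : V₀ ⊕ Fin 4 ≃ V), (add K j h).map f = G ∧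
      f (Sum.inr 3) = G.leg j ∧ f (Sum.inr 2) = G.e (G.leg j) ∧
      f (Sum.inr 0) = G.r (G.e (G.leg j)) ∧ f (Sum.inr 1) = G.r (G.r (G.e (G.leg j))) :=
  ⟨_, (hair_mk G j hy hne).K, (hair_mk G j hy hne).h, _, (hair_mk G j hy hne).map_add,
    rfl, rfl, rfl, rfl⟩

/-- finiteness of the smaller graph -/
theorem finite_of_equiv {V₀ : Type} [Finite V] (f : V₀ ⊕ Fin 4 ≃ V) : Finite V₀ := by
  have : Finite (V₀ ⊕ Fin 4) := Finite.of_equiv V f.symm
  exact Finite.of_injective (Sum.inl : V₀ → V₀ ⊕ Fin 4) Sum.inl_injective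

end Pool.Agent.SWT69
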